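import Pool.Agent.H231Z.SQMain

set_option autoImplicit false

namespace Pool.Agent.Results.MP_d3ad9a_lc.ANicePartition

open Pool.Agent.H231Z.SQ

/-- Q1: the tree `σℚ` admits a nice successor-partition. -/
theorem result : ∃ Q : SigmaQ → Fin 2 → Set SigmaQ, IsSuccPartition Q ∧ ∀ f : SigmaQ → Fin 2,
    (∃! S, IsTreeOf Q f S) ∧ ∀ S, IsTreeOf Q f S → ¬ Special S :=
  nice

end Pool.Agent.Results.MP_d3ad9a_lc.ANicePartition
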