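import Pool.Agent.H231Z.SQMain

set_option autoImplicit false

namespace Pool.Agent.Results.MP_d3ad9a_lc.BDiamond

open Pool.Agent.H231Z.SQ

/-- Q2: the diamond principle of the tree `σℚ` holds. -/
theorem result : ∃ D : SigmaQ → Set SigmaQ, (∀ t, D t ⊆ Set.Iio t) ∧
    ∀ X : Set SigmaQ, ¬ NonStat {t | X ∩ Set.Iio t = D t} :=
  diamond

end Pool.Agent.Results.MP_d3ad9a_lc.BDiamond
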